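import Mathlib
import Pool.Agent.U180.NG.Stm2

set_option autoImplicit false

/-!
Project NG, second part, package SMGF: the moment generating function of a sum of independent
centred indicator functions.
-/

open MeasureTheory ProbabilityTheory Filter Topology

namespace Pool.Agent.U129.NG

open Pool.Agent.U180.NG

theorem t_SMGF (h : S_MGF) : S_SMGF := by
  intro Ω ι _ P hP X S hmeas hind h01 t ht
  set p : ι → ℝ := fun i => ∫ ω, X i ω ∂P with hp
  have hint : ∀ i, Integrable (X i) P := by
    intro i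
    refine Integrable.of_bound (hmeas i).aestronglyMeasurable 1 (Eventually.of_forall fun ω => ?_)
    rcases h01 i ω with h1 | h1 <;> simp [h1]
  have hp0 : ∀ i, 0 ≤ p i := by
    intro i
    refine integral_nonneg fun ω => ?_
    rcases h01 i ω with h1 | h1 <;> simp [h1]
  have hp1 : ∀ i, p i ≤ 1 := by
    intro i
    have h2 : ∫ ω, X i ω ∂P ≤ ∫ _ω, (1 : ℝ) ∂P := by
      refine integral_mono (hint i) (integrable_const _) fun ω => ?_
      rcases h01 i ω with h1 | h1 <;> simp [h1]
    simpa using h2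
  have hfac : ∀ i, ∫ ω, Real.exp (t * (X i ω - p i)) ∂P =
      p i * Real.exp (t * (1 - p i)) + (1 - p i) * Real.exp (-(t * p i)) := by
    intro i
    have h1 : ∀ ω, Real.exp (t * (X i ω - p i)) =
        X i ω * Real.exp (t * (1 - p i)) + (1 - X i ω) * Real.exp (-(t * p i)) := by
      intro ω
      rcases h01 i ω with h2 | h2
      · rw [h2]
        have : t * (0 - p i) = -(t * p i) := by ring
        rw [this]; ring
      · rw [h2]; ring
    simp_rw [h1]
    have h3 : Integrable (fun ω => 1 - X i ω) P := (integrable_const (1 : ℝ)).sub (hint i)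
    rw [integral_add ((hint i).mul_const _) (h3.mul_const _),
      integral_mul_const, integral_mul_const, integral_sub (integrable_const _) (hint i)]
    simp [hp]
  have hind' : iIndepFun (fun i ω => X i ω - p i) P :=
    hind.comp (fun i x => x - p i) (fun i => measurable_id.sub_const _)
  have hprod : ∫ ω, Real.exp (t * ∑ i ∈ S, (X i ω - p i)) ∂P =
      ∏ i ∈ S, (p i * Real.exp (t * (1 - p i)) + (1 - p i) * Real.exp (-(t * p i))) := by
    have h1 := hind'.mgf_sum (t := t) (fun i => (hmeas i).sub_const _) S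
    unfold mgf at h1
    simp only [Finset.sum_apply] at h1
    rw [h1]
    exact Finset.prod_congr rfl fun i _ => hfac i
  have hexp : ∀ c : ℝ, Real.exp (c * (∑ i ∈ S, p i * (1 - p i)) * t ^ 2 / 2) =
      ∏ i ∈ S, Real.exp (c * (p i * (1 - p i)) * t ^ 2 / 2) := by
    intro c
    rw [← Real.exp_sum]
    congr 1
    rw [Finset.mul_sum, Finset.sum_mul, Finset.sum_div]
  refine ⟨?_, ?_⟩
  · change Real.exp ((1 - 2 * |t|) * (∑ i ∈ S, p i * (1 - p i)) * t ^ 2 / 2) ≤
      ∫ ω, Real.exp (t * ∑ i ∈ S, (X i ω - p i)) ∂P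
    rw [hprod, hexp]
    exact Finset.prod_le_prod (fun i _ => (Real.exp_pos _).le)
      fun i _ => (h (p i) t (hp0 i) (hp1 i) ht).1
  · change ∫ ω, Real.exp (t * ∑ i ∈ S, (X i ω - p i)) ∂P ≤
      Real.exp ((1 + 2 * |t|) * (∑ i ∈ S, p i * (1 - p i)) * t ^ 2 / 2)
    rw [hprod, hexp]
    refine Finset.prod_le_prod (fun i _ => ?_) fun i _ => (h (p i) t (hp0 i) (hp1 i) ht).2
    have h1 := hp0 i
    have h2 : 0 ≤ 1 - p i := by linarith [hp1 i]
    positivity

end Pool.Agent.U129.NG
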